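import Pool.Agent.U136.DX.Stm3

/-!
# Project DX, package LAP1 (helper962): the derivatives of `x₀ |x| ^ 10` span the quintic forms
-/

set_option autoImplicit false

namespace Pool.Agent.U962.DX

open MvPolynomial Pool.Agent.U136.DX

/-- monomials -/
noncomputable def m (i j k : ℕ) : MvPolynomial (Fin 3) ℝ := X 0 ^ i * X 1 ^ j * X 2 ^ k

theorem d0 (i j k : ℕ) : pderiv (0 : Fin 3) (m i j k) = (i : ℝ) • m (i - 1) j k := by
  unfold m
  rw [Derivation.leibniz, Derivation.leibniz, Derivation.leibniz_pow, Derivation.leibniz_pow,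
    Derivation.leibniz_pow, pderiv_X_self, pderiv_X_of_ne (by decide), pderiv_X_of_ne (by decide),
    MvPolynomial.smul_eq_C_mul]
  simp
  ring

theorem d1 (i j k : ℕ) : pderiv (1 : Fin 3) (m i j k) = (j : ℝ) • m i (j - 1) k := by
  unfold m
  rw [Derivation.leibniz, Derivation.leibniz, Derivation.leibniz_pow, Derivation.leibniz_pow,
    Derivation.leibniz_pow, pderiv_X_self, pderiv_X_of_ne (by decide), pderiv_X_of_ne (by decide),
    MvPolynomial.smul_eq_C_mul]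
  simp
  ring

theorem d2 (i j k : ℕ) : pderiv (2 : Fin 3) (m i j k) = (k : ℝ) • m i j (k - 1) := by
  unfold m
  rw [Derivation.leibniz, Derivation.leibniz, Derivation.leibniz_pow, Derivation.leibniz_pow,
    Derivation.leibniz_pow, pderiv_X_self, pderiv_X_of_ne (by decide), pderiv_X_of_ne (by decide),
    MvPolynomial.smul_eq_C_mul]
  simp
  ring

/-- partial derivatives as linear maps -/
noncomputable def L (i : Fin 3) : Module.End ℝ (MvPolynomial (Fin 3) ℝ) := (pderiv i).toLinearMap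

theorem L_apply (i : Fin 3) (Q : MvPolynomial (Fin 3) ℝ) : L i Q = pderiv i Q := rfl

/-- iterated derivatives -/
noncomputable def D (a b c : ℕ) : Module.End ℝ (MvPolynomial (Fin 3) ℝ) := L 0 ^ a * L 1 ^ b * L 2 ^ c

theorem pow0 (a i j k : ℕ) : (L 0 ^ a) (m i j k) = (i.descFactorial a : ℝ) • m (i - a) j k := by
  induction a with
  | zero => simp
  | succ a ih =>
    rw [pow_succ', Module.End.mul_apply, ih, map_smul, L_apply, d0, smul_smul, Nat.descFactorial_succ,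
      Nat.sub_sub, Nat.cast_mul, mul_comm]

theorem pow1 (a i j k : ℕ) : (L 1 ^ a) (m i j k) = (j.descFactorial a : ℝ) • m i (j - a) k := by
  induction a with
  | zero => simp
  | succ a ih =>
    rw [pow_succ', Module.End.mul_apply, ih, map_smul, L_apply, d1, smul_smul, Nat.descFactorial_succ,
      Nat.sub_sub, Nat.cast_mul, mul_comm]

theorem pow2 (a i j k : ℕ) : (L 2 ^ a) (m i j k) = (k.descFactorial a : ℝ) • m i j (k - a) := by
  induction a with
  | zero => simp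
  | succ a ih =>
    rw [pow_succ', Module.End.mul_apply, ih, map_smul, L_apply, d2, smul_smul, Nat.descFactorial_succ,
      Nat.sub_sub, Nat.cast_mul, mul_comm]

theorem D_m (a b c i j k : ℕ) : D a b c (m i j k) =
    ((k.descFactorial c : ℝ) * ((j.descFactorial b : ℝ) * (i.descFactorial a : ℝ))) •
      m (i - a) (j - b) (k - c) := by
  rw [D, Module.End.mul_apply, Module.End.mul_apply, pow2, map_smul, pow1, map_smul, map_smul, pow0,
    smul_smul, smul_smul, mul_assoc]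

theorem foldr_rep (i : Fin 3) (n : ℕ) (Q : MvPolynomial (Fin 3) ℝ) :
    (List.replicate n i).foldr (fun i R => pderiv i R) Q = (L i ^ n) Q := by
  induction n with
  | zero => simp
  | succ n ih =>
    rw [List.replicate_succ, List.foldr_cons, ih, pow_succ', Module.End.mul_apply, L_apply]

theorem D_mem (P : MvPolynomial (Fin 3) ℝ) (a b c : ℕ) (h : 0 < a + b + c) :
    D a b c P ∈ Submodule.span ℝ (Der P) := by
  apply Submodule.subset_span
  refine ⟨List.replicate a 0 ++ (List.replicate b 1 ++ List.replicate c 2), ?_, ?_⟩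
  · intro h0
    have := congrArg List.length h0
    simp at this
    omega
  · rw [List.foldr_append, List.foldr_append, foldr_rep, foldr_rep, foldr_rep]
    rfl

/-- the polynomial -/
noncomputable def P : MvPolynomial (Fin 3) ℝ :=
  (1 : ℝ) • m 1 0 10 +
  (5 : ℝ) • m 1 2 8 +
  (10 : ℝ) • m 1 4 6 +
  (10 : ℝ) • m 1 6 4 +
  (5 : ℝ) • m 1 8 2 +
  (1 : ℝ) • m 1 10 0 +
  (5 : ℝ) • m 3 0 8 +
  (20 : ℝ) • m 3 2 6 +
  (30 : ℝ) • m 3 4 4 +
  (20 : ℝ) • m 3 6 2 +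
  (5 : ℝ) • m 3 8 0 +
  (10 : ℝ) • m 5 0 6 +
  (30 : ℝ) • m 5 2 4 +
  (30 : ℝ) • m 5 4 2 +
  (10 : ℝ) • m 5 6 0 +
  (10 : ℝ) • m 7 0 4 +
  (20 : ℝ) • m 7 2 2 +
  (10 : ℝ) • m 7 4 0 +
  (5 : ℝ) • m 9 0 2 +
  (5 : ℝ) • m 9 2 0 +
  (1 : ℝ) • m 11 0 0

theorem P_eq : lapP (fun i => if i = 0 then 1 else 0) 5 = P := by
  unfold lapP P m
  rw [Fin.sum_univ_three, Fin.sum_univ_three]
  simp only [MvPolynomial.smul_eq_C_mul, map_ofNat, map_one]
  simp
  ring

theorem D006 : D 0 0 6 P =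
    (151200 : ℝ) • m 1 0 4 + (100800 : ℝ) • m 1 2 2 + (7200 : ℝ) • m 1 4 0 + (100800 : ℝ) • m 3 0 2 + (14400 : ℝ) • m 3 2 0 + (7200 : ℝ) • m 5 0 0 := by
  simp only [P, map_add, map_smul, D_m, smul_smul]
  norm_num [Nat.descFactorial]
  try module

theorem D015 : D 0 1 5 P =
    (67200 : ℝ) • m 1 1 3 + (28800 : ℝ) • m 1 3 1 + (28800 : ℝ) • m 3 1 1 := by
  simp only [P, map_add, map_smul, D_m, smul_smul]
  norm_num [Nat.descFactorial]
  try module

theorem D024 : D 0 2 4 P =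
    (16800 : ℝ) • m 1 0 4 + (43200 : ℝ) • m 1 2 2 + (7200 : ℝ) • m 1 4 0 + (14400 : ℝ) • m 3 0 2 + (8640 : ℝ) • m 3 2 0 + (1440 : ℝ) • m 5 0 0 := by
  simp only [P, map_add, map_smul, D_m, smul_smul]
  norm_num [Nat.descFactorial]
  try module

theorem D033 : D 0 3 3 P =
    (28800 : ℝ) • m 1 1 3 + (28800 : ℝ) • m 1 3 1 + (17280 : ℝ) • m 3 1 1 := by
  simp only [P, map_add, map_smul, D_m, smul_smul]
  norm_num [Nat.descFactorial]
  try module

theorem D042 : D 0 4 2 P =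
    (7200 : ℝ) • m 1 0 4 + (43200 : ℝ) • m 1 2 2 + (16800 : ℝ) • m 1 4 0 + (8640 : ℝ) • m 3 0 2 + (14400 : ℝ) • m 3 2 0 + (1440 : ℝ) • m 5 0 0 := by
  simp only [P, map_add, map_smul, D_m, smul_smul]
  norm_num [Nat.descFactorial]
  try module

theorem D105 : D 1 0 5 P =
    (30240 : ℝ) • m 0 0 5 + (33600 : ℝ) • m 0 2 3 + (7200 : ℝ) • m 0 4 1 + (100800 : ℝ) • m 2 0 3 + (43200 : ℝ) • m 2 2 1 + (36000 : ℝ) • m 4 0 1 := by
  simp only [P, map_add, map_smul, D_m, smul_smul]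
  norm_num [Nat.descFactorial]
  try module

theorem D114 : D 1 1 4 P =
    (16800 : ℝ) • m 0 1 4 + (14400 : ℝ) • m 0 3 2 + (1440 : ℝ) • m 0 5 0 + (43200 : ℝ) • m 2 1 2 + (8640 : ℝ) • m 2 3 0 + (7200 : ℝ) • m 4 1 0 := by
  simp only [P, map_add, map_smul, D_m, smul_smul]
  norm_num [Nat.descFactorial]
  try module

theorem D123 : D 1 2 3 P =
    (3360 : ℝ) • m 0 0 5 + (14400 : ℝ) • m 0 2 3 + (7200 : ℝ) • m 0 4 1 + (14400 : ℝ) • m 2 0 3 + (25920 : ℝ) • m 2 2 1 + (7200 : ℝ) • m 4 0 1 := by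
  simp only [P, map_add, map_smul, D_m, smul_smul]
  norm_num [Nat.descFactorial]
  try module

theorem D132 : D 1 3 2 P =
    (7200 : ℝ) • m 0 1 4 + (14400 : ℝ) • m 0 3 2 + (3360 : ℝ) • m 0 5 0 + (25920 : ℝ) • m 2 1 2 + (14400 : ℝ) • m 2 3 0 + (7200 : ℝ) • m 4 1 0 := by
  simp only [P, map_add, map_smul, D_m, smul_smul]
  norm_num [Nat.descFactorial]
  try module

theorem D141 : D 1 4 1 P =
    (1440 : ℝ) • m 0 0 5 + (14400 : ℝ) • m 0 2 3 + (16800 : ℝ) • m 0 4 1 + (8640 : ℝ) • m 2 0 3 + (43200 : ℝ) • m 2 2 1 + (7200 : ℝ) • m 4 0 1 := by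
  simp only [P, map_add, map_smul, D_m, smul_smul]
  norm_num [Nat.descFactorial]
  try module

theorem D150 : D 1 5 0 P =
    (7200 : ℝ) • m 0 1 4 + (33600 : ℝ) • m 0 3 2 + (30240 : ℝ) • m 0 5 0 + (43200 : ℝ) • m 2 1 2 + (100800 : ℝ) • m 2 3 0 + (36000 : ℝ) • m 4 1 0 := by
  simp only [P, map_add, map_smul, D_m, smul_smul]
  norm_num [Nat.descFactorial]
  try module

theorem D204 : D 2 0 4 P =
    (50400 : ℝ) • m 1 0 4 + (43200 : ℝ) • m 1 2 2 + (4320 : ℝ) • m 1 4 0 + (72000 : ℝ) • m 3 0 2 + (14400 : ℝ) • m 3 2 0 + (10080 : ℝ) • m 5 0 0 := by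
  simp only [P, map_add, map_smul, D_m, smul_smul]
  norm_num [Nat.descFactorial]
  try module

theorem D213 : D 2 1 3 P =
    (28800 : ℝ) • m 1 1 3 + (17280 : ℝ) • m 1 3 1 + (28800 : ℝ) • m 3 1 1 := by
  simp only [P, map_add, map_smul, D_m, smul_smul]
  norm_num [Nat.descFactorial]
  try module

theorem D222 : D 2 2 2 P =
    (7200 : ℝ) • m 1 0 4 + (25920 : ℝ) • m 1 2 2 + (7200 : ℝ) • m 1 4 0 + (14400 : ℝ) • m 3 0 2 + (14400 : ℝ) • m 3 2 0 + (3360 : ℝ) • m 5 0 0 := by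
  simp only [P, map_add, map_smul, D_m, smul_smul]
  norm_num [Nat.descFactorial]
  try module

theorem D303 : D 3 0 3 P =
    (10080 : ℝ) • m 0 0 5 + (14400 : ℝ) • m 0 2 3 + (4320 : ℝ) • m 0 4 1 + (72000 : ℝ) • m 2 0 3 + (43200 : ℝ) • m 2 2 1 + (50400 : ℝ) • m 4 0 1 := by
  simp only [P, map_add, map_smul, D_m, smul_smul]
  norm_num [Nat.descFactorial]
  try module

theorem D312 : D 3 1 2 P =
    (7200 : ℝ) • m 0 1 4 + (8640 : ℝ) • m 0 3 2 + (1440 : ℝ) • m 0 5 0 + (43200 : ℝ) • m 2 1 2 + (14400 : ℝ) • m 2 3 0 + (16800 : ℝ) • m 4 1 0 := by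
  simp only [P, map_add, map_smul, D_m, smul_smul]
  norm_num [Nat.descFactorial]
  try module

theorem D321 : D 3 2 1 P =
    (1440 : ℝ) • m 0 0 5 + (8640 : ℝ) • m 0 2 3 + (7200 : ℝ) • m 0 4 1 + (14400 : ℝ) • m 2 0 3 + (43200 : ℝ) • m 2 2 1 + (16800 : ℝ) • m 4 0 1 := by
  simp only [P, map_add, map_smul, D_m, smul_smul]
  norm_num [Nat.descFactorial]
  try module

theorem D330 : D 3 3 0 P =
    (4320 : ℝ) • m 0 1 4 + (14400 : ℝ) • m 0 3 2 + (10080 : ℝ) • m 0 5 0 + (43200 : ℝ) • m 2 1 2 + (72000 : ℝ) • m 2 3 0 + (50400 : ℝ) • m 4 1 0 := by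
  simp only [P, map_add, map_smul, D_m, smul_smul]
  norm_num [Nat.descFactorial]
  try module

theorem D402 : D 4 0 2 P =
    (36000 : ℝ) • m 1 0 4 + (43200 : ℝ) • m 1 2 2 + (7200 : ℝ) • m 1 4 0 + (100800 : ℝ) • m 3 0 2 + (33600 : ℝ) • m 3 2 0 + (30240 : ℝ) • m 5 0 0 := by
  simp only [P, map_add, map_smul, D_m, smul_smul]
  norm_num [Nat.descFactorial]
  try module

theorem D501 : D 5 0 1 P =
    (7200 : ℝ) • m 0 0 5 + (14400 : ℝ) • m 0 2 3 + (7200 : ℝ) • m 0 4 1 + (100800 : ℝ) • m 2 0 3 + (100800 : ℝ) • m 2 2 1 + (151200 : ℝ) • m 4 0 1 := by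
  simp only [P, map_add, map_smul, D_m, smul_smul]
  norm_num [Nat.descFactorial]
  try module

theorem D510 : D 5 1 0 P =
    (7200 : ℝ) • m 0 1 4 + (14400 : ℝ) • m 0 3 2 + (7200 : ℝ) • m 0 5 0 + (100800 : ℝ) • m 2 1 2 + (100800 : ℝ) • m 2 3 0 + (151200 : ℝ) • m 4 1 0 := by
  simp only [P, map_add, map_smul, D_m, smul_smul]
  norm_num [Nat.descFactorial]
  try module

theorem T005 : m 0 0 5 ∈ Submodule.span ℝ (Der P) := by
  have h : m 0 0 5 = (1 / 11440 : ℝ) • D 1 0 5 P + (-1 / 6864 : ℝ) • D 1 2 3 P + (1 / 36608 : ℝ) • D 1 4 1 P + (-1 / 6864 : ℝ) • D 3 0 3 P + (1 / 18304 : ℝ) • D 3 2 1 P + (1 / 36608 : ℝ) • D 5 0 1 P := by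
    rw [D105, D123, D141, D303, D321, D501]
    module
  rw [h]
  exact Submodule.add_mem _ (Submodule.add_mem _ (Submodule.add_mem _ (Submodule.add_mem _ (Submodule.add_mem _ (Submodule.smul_mem _ _ (D_mem P 1 0 5 (by norm_num)))
    (Submodule.smul_mem _ _ (D_mem P 1 2 3 (by norm_num))))
    (Submodule.smul_mem _ _ (D_mem P 1 4 1 (by norm_num))))
    (Submodule.smul_mem _ _ (D_mem P 3 0 3 (by norm_num))))
    (Submodule.smul_mem _ _ (D_mem P 3 2 1 (by norm_num))))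
    (Submodule.smul_mem _ _ (D_mem P 5 0 1 (by norm_num)))

theorem T014 : m 0 1 4 ∈ Submodule.span ℝ (Der P) := by
  have h : m 0 1 4 = (1 / 6864 : ℝ) • D 1 1 4 P + (-1 / 9152 : ℝ) • D 1 3 2 P + (1 / 183040 : ℝ) • D 1 5 0 P + (-1 / 9152 : ℝ) • D 3 1 2 P + (1 / 91520 : ℝ) • D 3 3 0 P + (1 / 183040 : ℝ) • D 5 1 0 P := by
    rw [D114, D132, D150, D312, D330, D510]
    module
  rw [h]
  exact Submodule.add_mem _ (Submodule.add_mem _ (Submodule.add_mem _ (Submodule.add_mem _ (Submodule.add_mem _ (Submodule.smul_mem _ _ (D_mem P 1 1 4 (by norm_num)))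
    (Submodule.smul_mem _ _ (D_mem P 1 3 2 (by norm_num))))
    (Submodule.smul_mem _ _ (D_mem P 1 5 0 (by norm_num))))
    (Submodule.smul_mem _ _ (D_mem P 3 1 2 (by norm_num))))
    (Submodule.smul_mem _ _ (D_mem P 3 3 0 (by norm_num))))
    (Submodule.smul_mem _ _ (D_mem P 5 1 0 (by norm_num)))

theorem T023 : m 0 2 3 ∈ Submodule.span ℝ (Der P) := by
  have h : m 0 2 3 = (-1 / 68640 : ℝ) • D 1 0 5 P + (7 / 36608 : ℝ) • D 1 2 3 P + (-1 / 18304 : ℝ) • D 1 4 1 P + (-1 / 109824 : ℝ) • D 3 0 3 P + (-9 / 183040 : ℝ) • D 3 2 1 P + (1 / 183040 : ℝ) • D 5 0 1 P := by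
    rw [D105, D123, D141, D303, D321, D501]
    module
  rw [h]
  exact Submodule.add_mem _ (Submodule.add_mem _ (Submodule.add_mem _ (Submodule.add_mem _ (Submodule.add_mem _ (Submodule.smul_mem _ _ (D_mem P 1 0 5 (by norm_num)))
    (Submodule.smul_mem _ _ (D_mem P 1 2 3 (by norm_num))))
    (Submodule.smul_mem _ _ (D_mem P 1 4 1 (by norm_num))))
    (Submodule.smul_mem _ _ (D_mem P 3 0 3 (by norm_num))))
    (Submodule.smul_mem _ _ (D_mem P 3 2 1 (by norm_num))))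
    (Submodule.smul_mem _ _ (D_mem P 5 0 1 (by norm_num)))

theorem T032 : m 0 3 2 ∈ Submodule.span ℝ (Der P) := by
  have h : m 0 3 2 = (-1 / 18304 : ℝ) • D 1 1 4 P + (7 / 36608 : ℝ) • D 1 3 2 P + (-1 / 68640 : ℝ) • D 1 5 0 P + (-9 / 183040 : ℝ) • D 3 1 2 P + (-1 / 109824 : ℝ) • D 3 3 0 P + (1 / 183040 : ℝ) • D 5 1 0 P := by
    rw [D114, D132, D150, D312, D330, D510]
    module
  rw [h]
  exact Submodule.add_mem _ (Submodule.add_mem _ (Submodule.add_mem _ (Submodule.add_mem _ (Submodule.add_mem _ (Submodule.smul_mem _ _ (D_mem P 1 1 4 (by norm_num)))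
    (Submodule.smul_mem _ _ (D_mem P 1 3 2 (by norm_num))))
    (Submodule.smul_mem _ _ (D_mem P 1 5 0 (by norm_num))))
    (Submodule.smul_mem _ _ (D_mem P 3 1 2 (by norm_num))))
    (Submodule.smul_mem _ _ (D_mem P 3 3 0 (by norm_num))))
    (Submodule.smul_mem _ _ (D_mem P 5 1 0 (by norm_num)))

theorem T041 : m 0 4 1 ∈ Submodule.span ℝ (Der P) := by
  have h : m 0 4 1 = (1 / 183040 : ℝ) • D 1 0 5 P + (-1 / 9152 : ℝ) • D 1 2 3 P + (1 / 6864 : ℝ) • D 1 4 1 P + (1 / 91520 : ℝ) • D 3 0 3 P + (-1 / 9152 : ℝ) • D 3 2 1 P + (1 / 183040 : ℝ) • D 5 0 1 P := by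
    rw [D105, D123, D141, D303, D321, D501]
    module
  rw [h]
  exact Submodule.add_mem _ (Submodule.add_mem _ (Submodule.add_mem _ (Submodule.add_mem _ (Submodule.add_mem _ (Submodule.smul_mem _ _ (D_mem P 1 0 5 (by norm_num)))
    (Submodule.smul_mem _ _ (D_mem P 1 2 3 (by norm_num))))
    (Submodule.smul_mem _ _ (D_mem P 1 4 1 (by norm_num))))
    (Submodule.smul_mem _ _ (D_mem P 3 0 3 (by norm_num))))
    (Submodule.smul_mem _ _ (D_mem P 3 2 1 (by norm_num))))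
    (Submodule.smul_mem _ _ (D_mem P 5 0 1 (by norm_num)))

theorem T050 : m 0 5 0 ∈ Submodule.span ℝ (Der P) := by
  have h : m 0 5 0 = (1 / 36608 : ℝ) • D 1 1 4 P + (-1 / 6864 : ℝ) • D 1 3 2 P + (1 / 11440 : ℝ) • D 1 5 0 P + (1 / 18304 : ℝ) • D 3 1 2 P + (-1 / 6864 : ℝ) • D 3 3 0 P + (1 / 36608 : ℝ) • D 5 1 0 P := by
    rw [D114, D132, D150, D312, D330, D510]
    module
  rw [h]
  exact Submodule.add_mem _ (Submodule.add_mem _ (Submodule.add_mem _ (Submodule.add_mem _ (Submodule.add_mem _ (Submodule.smul_mem _ _ (D_mem P 1 1 4 (by norm_num)))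
    (Submodule.smul_mem _ _ (D_mem P 1 3 2 (by norm_num))))
    (Submodule.smul_mem _ _ (D_mem P 1 5 0 (by norm_num))))
    (Submodule.smul_mem _ _ (D_mem P 3 1 2 (by norm_num))))
    (Submodule.smul_mem _ _ (D_mem P 3 3 0 (by norm_num))))
    (Submodule.smul_mem _ _ (D_mem P 5 1 0 (by norm_num)))

theorem T104 : m 1 0 4 ∈ Submodule.span ℝ (Der P) := by
  have h : m 1 0 4 = (1 / 57200 : ℝ) • D 0 0 6 P + (-1 / 34320 : ℝ) • D 0 2 4 P + (1 / 183040 : ℝ) • D 0 4 2 P + (-1 / 34320 : ℝ) • D 2 0 4 P + (1 / 91520 : ℝ) • D 2 2 2 P + (1 / 183040 : ℝ) • D 4 0 2 P := by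
    rw [D006, D024, D042, D204, D222, D402]
    module
  rw [h]
  exact Submodule.add_mem _ (Submodule.add_mem _ (Submodule.add_mem _ (Submodule.add_mem _ (Submodule.add_mem _ (Submodule.smul_mem _ _ (D_mem P 0 0 6 (by norm_num)))
    (Submodule.smul_mem _ _ (D_mem P 0 2 4 (by norm_num))))
    (Submodule.smul_mem _ _ (D_mem P 0 4 2 (by norm_num))))
    (Submodule.smul_mem _ _ (D_mem P 2 0 4 (by norm_num))))
    (Submodule.smul_mem _ _ (D_mem P 2 2 2 (by norm_num))))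
    (Submodule.smul_mem _ _ (D_mem P 4 0 2 (by norm_num)))

theorem T113 : m 1 1 3 ∈ Submodule.span ℝ (Der P) := by
  have h : m 1 1 3 = (1 / 31200 : ℝ) • D 0 1 5 P + (-1 / 49920 : ℝ) • D 0 3 3 P + (-1 / 49920 : ℝ) • D 2 1 3 P := by
    rw [D015, D033, D213]
    module
  rw [h]
  exact Submodule.add_mem _ (Submodule.add_mem _ (Submodule.smul_mem _ _ (D_mem P 0 1 5 (by norm_num)))
    (Submodule.smul_mem _ _ (D_mem P 0 3 3 (by norm_num))))
    (Submodule.smul_mem _ _ (D_mem P 2 1 3 (by norm_num)))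

theorem T122 : m 1 2 2 ∈ Submodule.span ℝ (Der P) := by
  have h : m 1 2 2 = (-1 / 205920 : ℝ) • D 0 0 6 P + (7 / 109824 : ℝ) • D 0 2 4 P + (-1 / 54912 : ℝ) • D 0 4 2 P + (-1 / 329472 : ℝ) • D 2 0 4 P + (-3 / 183040 : ℝ) • D 2 2 2 P + (1 / 549120 : ℝ) • D 4 0 2 P := by
    rw [D006, D024, D042, D204, D222, D402]
    module
  rw [h]
  exact Submodule.add_mem _ (Submodule.add_mem _ (Submodule.add_mem _ (Submodule.add_mem _ (Submodule.add_mem _ (Submodule.smul_mem _ _ (D_mem P 0 0 6 (by norm_num)))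
    (Submodule.smul_mem _ _ (D_mem P 0 2 4 (by norm_num))))
    (Submodule.smul_mem _ _ (D_mem P 0 4 2 (by norm_num))))
    (Submodule.smul_mem _ _ (D_mem P 2 0 4 (by norm_num))))
    (Submodule.smul_mem _ _ (D_mem P 2 2 2 (by norm_num))))
    (Submodule.smul_mem _ _ (D_mem P 4 0 2 (by norm_num)))

theorem T131 : m 1 3 1 ∈ Submodule.span ℝ (Der P) := by
  have h : m 1 3 1 = (-1 / 49920 : ℝ) • D 0 1 5 P + (1 / 14976 : ℝ) • D 0 3 3 P + (-1 / 49920 : ℝ) • D 2 1 3 P := by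
    rw [D015, D033, D213]
    module
  rw [h]
  exact Submodule.add_mem _ (Submodule.add_mem _ (Submodule.smul_mem _ _ (D_mem P 0 1 5 (by norm_num)))
    (Submodule.smul_mem _ _ (D_mem P 0 3 3 (by norm_num))))
    (Submodule.smul_mem _ _ (D_mem P 2 1 3 (by norm_num)))

theorem T140 : m 1 4 0 ∈ Submodule.span ℝ (Der P) := by
  have h : m 1 4 0 = (1 / 183040 : ℝ) • D 0 0 6 P + (-1 / 9152 : ℝ) • D 0 2 4 P + (1 / 6864 : ℝ) • D 0 4 2 P + (1 / 91520 : ℝ) • D 2 0 4 P + (-1 / 9152 : ℝ) • D 2 2 2 P + (1 / 183040 : ℝ) • D 4 0 2 P := by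
    rw [D006, D024, D042, D204, D222, D402]
    module
  rw [h]
  exact Submodule.add_mem _ (Submodule.add_mem _ (Submodule.add_mem _ (Submodule.add_mem _ (Submodule.add_mem _ (Submodule.smul_mem _ _ (D_mem P 0 0 6 (by norm_num)))
    (Submodule.smul_mem _ _ (D_mem P 0 2 4 (by norm_num))))
    (Submodule.smul_mem _ _ (D_mem P 0 4 2 (by norm_num))))
    (Submodule.smul_mem _ _ (D_mem P 2 0 4 (by norm_num))))
    (Submodule.smul_mem _ _ (D_mem P 2 2 2 (by norm_num))))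
    (Submodule.smul_mem _ _ (D_mem P 4 0 2 (by norm_num)))

theorem T203 : m 2 0 3 ∈ Submodule.span ℝ (Der P) := by
  have h : m 2 0 3 = (-1 / 68640 : ℝ) • D 1 0 5 P + (-1 / 109824 : ℝ) • D 1 2 3 P + (1 / 183040 : ℝ) • D 1 4 1 P + (19 / 329472 : ℝ) • D 3 0 3 P + (-1 / 109824 : ℝ) • D 3 2 1 P + (-1 / 68640 : ℝ) • D 5 0 1 P := by
    rw [D105, D123, D141, D303, D321, D501]
    module
  rw [h]
  exact Submodule.add_mem _ (Submodule.add_mem _ (Submodule.add_mem _ (Submodule.add_mem _ (Submodule.add_mem _ (Submodule.smul_mem _ _ (D_mem P 1 0 5 (by norm_num)))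
    (Submodule.smul_mem _ _ (D_mem P 1 2 3 (by norm_num))))
    (Submodule.smul_mem _ _ (D_mem P 1 4 1 (by norm_num))))
    (Submodule.smul_mem _ _ (D_mem P 3 0 3 (by norm_num))))
    (Submodule.smul_mem _ _ (D_mem P 3 2 1 (by norm_num))))
    (Submodule.smul_mem _ _ (D_mem P 5 0 1 (by norm_num)))

theorem T212 : m 2 1 2 ∈ Submodule.span ℝ (Der P) := by
  have h : m 2 1 2 = (-1 / 54912 : ℝ) • D 1 1 4 P + (-3 / 183040 : ℝ) • D 1 3 2 P + (1 / 549120 : ℝ) • D 1 5 0 P + (7 / 109824 : ℝ) • D 3 1 2 P + (-1 / 329472 : ℝ) • D 3 3 0 P + (-1 / 205920 : ℝ) • D 5 1 0 P := by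
    rw [D114, D132, D150, D312, D330, D510]
    module
  rw [h]
  exact Submodule.add_mem _ (Submodule.add_mem _ (Submodule.add_mem _ (Submodule.add_mem _ (Submodule.add_mem _ (Submodule.smul_mem _ _ (D_mem P 1 1 4 (by norm_num)))
    (Submodule.smul_mem _ _ (D_mem P 1 3 2 (by norm_num))))
    (Submodule.smul_mem _ _ (D_mem P 1 5 0 (by norm_num))))
    (Submodule.smul_mem _ _ (D_mem P 3 1 2 (by norm_num))))
    (Submodule.smul_mem _ _ (D_mem P 3 3 0 (by norm_num))))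
    (Submodule.smul_mem _ _ (D_mem P 5 1 0 (by norm_num)))

theorem T221 : m 2 2 1 ∈ Submodule.span ℝ (Der P) := by
  have h : m 2 2 1 = (1 / 549120 : ℝ) • D 1 0 5 P + (-3 / 183040 : ℝ) • D 1 2 3 P + (-1 / 54912 : ℝ) • D 1 4 1 P + (-1 / 329472 : ℝ) • D 3 0 3 P + (7 / 109824 : ℝ) • D 3 2 1 P + (-1 / 205920 : ℝ) • D 5 0 1 P := by
    rw [D105, D123, D141, D303, D321, D501]
    module
  rw [h]
  exact Submodule.add_mem _ (Submodule.add_mem _ (Submodule.add_mem _ (Submodule.add_mem _ (Submodule.add_mem _ (Submodule.smul_mem _ _ (D_mem P 1 0 5 (by norm_num)))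
    (Submodule.smul_mem _ _ (D_mem P 1 2 3 (by norm_num))))
    (Submodule.smul_mem _ _ (D_mem P 1 4 1 (by norm_num))))
    (Submodule.smul_mem _ _ (D_mem P 3 0 3 (by norm_num))))
    (Submodule.smul_mem _ _ (D_mem P 3 2 1 (by norm_num))))
    (Submodule.smul_mem _ _ (D_mem P 5 0 1 (by norm_num)))

theorem T230 : m 2 3 0 ∈ Submodule.span ℝ (Der P) := by
  have h : m 2 3 0 = (1 / 183040 : ℝ) • D 1 1 4 P + (-1 / 109824 : ℝ) • D 1 3 2 P + (-1 / 68640 : ℝ) • D 1 5 0 P + (-1 / 109824 : ℝ) • D 3 1 2 P + (19 / 329472 : ℝ) • D 3 3 0 P + (-1 / 68640 : ℝ) • D 5 1 0 P := by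
    rw [D114, D132, D150, D312, D330, D510]
    module
  rw [h]
  exact Submodule.add_mem _ (Submodule.add_mem _ (Submodule.add_mem _ (Submodule.add_mem _ (Submodule.add_mem _ (Submodule.smul_mem _ _ (D_mem P 1 1 4 (by norm_num)))
    (Submodule.smul_mem _ _ (D_mem P 1 3 2 (by norm_num))))
    (Submodule.smul_mem _ _ (D_mem P 1 5 0 (by norm_num))))
    (Submodule.smul_mem _ _ (D_mem P 3 1 2 (by norm_num))))
    (Submodule.smul_mem _ _ (D_mem P 3 3 0 (by norm_num))))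
    (Submodule.smul_mem _ _ (D_mem P 5 1 0 (by norm_num)))

theorem T302 : m 3 0 2 ∈ Submodule.span ℝ (Der P) := by
  have h : m 3 0 2 = (-1 / 68640 : ℝ) • D 0 0 6 P + (-1 / 109824 : ℝ) • D 0 2 4 P + (1 / 183040 : ℝ) • D 0 4 2 P + (19 / 329472 : ℝ) • D 2 0 4 P + (-1 / 109824 : ℝ) • D 2 2 2 P + (-1 / 68640 : ℝ) • D 4 0 2 P := by
    rw [D006, D024, D042, D204, D222, D402]
    module
  rw [h]
  exact Submodule.add_mem _ (Submodule.add_mem _ (Submodule.add_mem _ (Submodule.add_mem _ (Submodule.add_mem _ (Submodule.smul_mem _ _ (D_mem P 0 0 6 (by norm_num)))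
    (Submodule.smul_mem _ _ (D_mem P 0 2 4 (by norm_num))))
    (Submodule.smul_mem _ _ (D_mem P 0 4 2 (by norm_num))))
    (Submodule.smul_mem _ _ (D_mem P 2 0 4 (by norm_num))))
    (Submodule.smul_mem _ _ (D_mem P 2 2 2 (by norm_num))))
    (Submodule.smul_mem _ _ (D_mem P 4 0 2 (by norm_num)))

theorem T311 : m 3 1 1 ∈ Submodule.span ℝ (Der P) := by
  have h : m 3 1 1 = (-1 / 49920 : ℝ) • D 0 1 5 P + (-1 / 49920 : ℝ) • D 0 3 3 P + (1 / 14976 : ℝ) • D 2 1 3 P := by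
    rw [D015, D033, D213]
    module
  rw [h]
  exact Submodule.add_mem _ (Submodule.add_mem _ (Submodule.smul_mem _ _ (D_mem P 0 1 5 (by norm_num)))
    (Submodule.smul_mem _ _ (D_mem P 0 3 3 (by norm_num))))
    (Submodule.smul_mem _ _ (D_mem P 2 1 3 (by norm_num)))

theorem T320 : m 3 2 0 ∈ Submodule.span ℝ (Der P) := by
  have h : m 3 2 0 = (1 / 183040 : ℝ) • D 0 0 6 P + (-9 / 183040 : ℝ) • D 0 2 4 P + (-1 / 18304 : ℝ) • D 0 4 2 P + (-1 / 109824 : ℝ) • D 2 0 4 P + (7 / 36608 : ℝ) • D 2 2 2 P + (-1 / 68640 : ℝ) • D 4 0 2 P := by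
    rw [D006, D024, D042, D204, D222, D402]
    module
  rw [h]
  exact Submodule.add_mem _ (Submodule.add_mem _ (Submodule.add_mem _ (Submodule.add_mem _ (Submodule.add_mem _ (Submodule.smul_mem _ _ (D_mem P 0 0 6 (by norm_num)))
    (Submodule.smul_mem _ _ (D_mem P 0 2 4 (by norm_num))))
    (Submodule.smul_mem _ _ (D_mem P 0 4 2 (by norm_num))))
    (Submodule.smul_mem _ _ (D_mem P 2 0 4 (by norm_num))))
    (Submodule.smul_mem _ _ (D_mem P 2 2 2 (by norm_num))))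
    (Submodule.smul_mem _ _ (D_mem P 4 0 2 (by norm_num)))

theorem T401 : m 4 0 1 ∈ Submodule.span ℝ (Der P) := by
  have h : m 4 0 1 = (1 / 183040 : ℝ) • D 1 0 5 P + (1 / 91520 : ℝ) • D 1 2 3 P + (1 / 183040 : ℝ) • D 1 4 1 P + (-1 / 34320 : ℝ) • D 3 0 3 P + (-1 / 34320 : ℝ) • D 3 2 1 P + (1 / 57200 : ℝ) • D 5 0 1 P := by
    rw [D105, D123, D141, D303, D321, D501]
    module
  rw [h]
  exact Submodule.add_mem _ (Submodule.add_mem _ (Submodule.add_mem _ (Submodule.add_mem _ (Submodule.add_mem _ (Submodule.smul_mem _ _ (D_mem P 1 0 5 (by norm_num)))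
    (Submodule.smul_mem _ _ (D_mem P 1 2 3 (by norm_num))))
    (Submodule.smul_mem _ _ (D_mem P 1 4 1 (by norm_num))))
    (Submodule.smul_mem _ _ (D_mem P 3 0 3 (by norm_num))))
    (Submodule.smul_mem _ _ (D_mem P 3 2 1 (by norm_num))))
    (Submodule.smul_mem _ _ (D_mem P 5 0 1 (by norm_num)))

theorem T410 : m 4 1 0 ∈ Submodule.span ℝ (Der P) := by
  have h : m 4 1 0 = (1 / 183040 : ℝ) • D 1 1 4 P + (1 / 91520 : ℝ) • D 1 3 2 P + (1 / 183040 : ℝ) • D 1 5 0 P + (-1 / 34320 : ℝ) • D 3 1 2 P + (-1 / 34320 : ℝ) • D 3 3 0 P + (1 / 57200 : ℝ) • D 5 1 0 P := by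
    rw [D114, D132, D150, D312, D330, D510]
    module
  rw [h]
  exact Submodule.add_mem _ (Submodule.add_mem _ (Submodule.add_mem _ (Submodule.add_mem _ (Submodule.add_mem _ (Submodule.smul_mem _ _ (D_mem P 1 1 4 (by norm_num)))
    (Submodule.smul_mem _ _ (D_mem P 1 3 2 (by norm_num))))
    (Submodule.smul_mem _ _ (D_mem P 1 5 0 (by norm_num))))
    (Submodule.smul_mem _ _ (D_mem P 3 1 2 (by norm_num))))
    (Submodule.smul_mem _ _ (D_mem P 3 3 0 (by norm_num))))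
    (Submodule.smul_mem _ _ (D_mem P 5 1 0 (by norm_num)))

theorem T500 : m 5 0 0 ∈ Submodule.span ℝ (Der P) := by
  have h : m 5 0 0 = (1 / 36608 : ℝ) • D 0 0 6 P + (1 / 18304 : ℝ) • D 0 2 4 P + (1 / 36608 : ℝ) • D 0 4 2 P + (-1 / 6864 : ℝ) • D 2 0 4 P + (-1 / 6864 : ℝ) • D 2 2 2 P + (1 / 11440 : ℝ) • D 4 0 2 P := by
    rw [D006, D024, D042, D204, D222, D402]
    module
  rw [h]
  exact Submodule.add_mem _ (Submodule.add_mem _ (Submodule.add_mem _ (Submodule.add_mem _ (Submodule.add_mem _ (Submodule.smul_mem _ _ (D_mem P 0 0 6 (by norm_num)))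
    (Submodule.smul_mem _ _ (D_mem P 0 2 4 (by norm_num))))
    (Submodule.smul_mem _ _ (D_mem P 0 4 2 (by norm_num))))
    (Submodule.smul_mem _ _ (D_mem P 2 0 4 (by norm_num))))
    (Submodule.smul_mem _ _ (D_mem P 2 2 2 (by norm_num))))
    (Submodule.smul_mem _ _ (D_mem P 4 0 2 (by norm_num)))

theorem all (a b c : ℕ) (h : a + b + c = 5) : m a b c ∈ Submodule.span ℝ (Der P) := by
  have h1 : a = 0 ∨ a = 1 ∨ a = 2 ∨ a = 3 ∨ a = 4 ∨ a = 5 := by omega
  rcases h1 with rfl | rfl | rfl | rfl | rfl | rfl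
  · have h2 : b = 0 ∨ b = 1 ∨ b = 2 ∨ b = 3 ∨ b = 4 ∨ b = 5 := by omega
    rcases h2 with rfl | rfl | rfl | rfl | rfl | rfl
    · obtain rfl : c = 5 := by omega
      exact T005
    · obtain rfl : c = 4 := by omega
      exact T014
    · obtain rfl : c = 3 := by omega
      exact T023
    · obtain rfl : c = 2 := by omega
      exact T032
    · obtain rfl : c = 1 := by omega
      exact T041
    · obtain rfl : c = 0 := by omega
      exact T050
  · have h2 : b = 0 ∨ b = 1 ∨ b = 2 ∨ b = 3 ∨ b = 4 := by omega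
    rcases h2 with rfl | rfl | rfl | rfl | rfl
    · obtain rfl : c = 4 := by omega
      exact T104
    · obtain rfl : c = 3 := by omega
      exact T113
    · obtain rfl : c = 2 := by omega
      exact T122
    · obtain rfl : c = 1 := by omega
      exact T131
    · obtain rfl : c = 0 := by omega
      exact T140
  · have h2 : b = 0 ∨ b = 1 ∨ b = 2 ∨ b = 3 := by omega
    rcases h2 with rfl | rfl | rfl | rfl
    · obtain rfl : c = 3 := by omega
      exact T203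
    · obtain rfl : c = 2 := by omega
      exact T212
    · obtain rfl : c = 1 := by omega
      exact T221
    · obtain rfl : c = 0 := by omega
      exact T230
  · have h2 : b = 0 ∨ b = 1 ∨ b = 2 := by omega
    rcases h2 with rfl | rfl | rfl
    · obtain rfl : c = 2 := by omega
      exact T302
    · obtain rfl : c = 1 := by omega
      exact T311
    · obtain rfl : c = 0 := by omega
      exact T320
  · have h2 : b = 0 ∨ b = 1 := by omega
    rcases h2 with rfl | rfl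
    · obtain rfl : c = 1 := by omega
      exact T401
    · obtain rfl : c = 0 := by omega
      exact T410
  · obtain rfl : b = 0 := by omega
    obtain rfl : c = 0 := by omega
    exact T500

/-- Package LAP1. -/
theorem t_LAP1 : S_LAP1 := by
  intro β hβ
  rw [P_eq, Fin.prod_univ_three]
  rw [Fin.sum_univ_three] at hβ
  exact all _ _ _ hβ

end Pool.Agent.U962.DX
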